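import Pool.Agent.Helper15.AB.GoalsD

/-! # Project AB (MP_1ef41b_an), packet AVT: invariance of averages -/

open MeasureTheory Set Filter Topology

noncomputable section

namespace Pool.Agent.Helper99.AB

open Pool.Agent.Helper15.AB

lemma per_shift {f : ℝ → ℝ} (hf : ∀ x, f (x + 2 * Real.pi) = f x) (c : ℝ) :
    ∫ x in (0 : ℝ)..(2 * Real.pi), f (x + c) = ∫ x in (0 : ℝ)..(2 * Real.pi), f x := by
  have hp : Function.Periodic f (2 * Real.pi) := hf
  rw [intervalIntegral.integral_comp_add_right]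
  have h := hp.intervalIntegral_add_eq c 0
  rw [zero_add] at h
  rw [zero_add, add_comm (2 * Real.pi) c]
  exact h

lemma swap_cont {G : ℝ → ℝ → ℝ} (hG : Continuous fun v : ℝ × ℝ => G v.1 v.2) :
    ∫ x in (0 : ℝ)..(2 * Real.pi), ∫ y in (0 : ℝ)..(2 * Real.pi), G x y
      = ∫ y in (0 : ℝ)..(2 * Real.pi), ∫ x in (0 : ℝ)..(2 * Real.pi), G x y := by
  have h0 : (0 : ℝ) ≤ 2 * Real.pi := by positivity
  simp_rw [intervalIntegral.integral_of_le h0]
  apply integral_integral_swap
  rw [Measure.prod_restrict]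
  have hc : ContinuousOn (fun v : ℝ × ℝ => G v.1 v.2)
      (Icc (0 : ℝ) (2 * Real.pi) ×ˢ Icc (0 : ℝ) (2 * Real.pi)) := hG.continuousOn
  exact (hc.integrableOn_compact (isCompact_Icc.prod isCompact_Icc)).mono_set
    (prod_mono Ioc_subset_Icc_self Ioc_subset_Icc_self)

/-- the inner integral -/
def inn (F : ℝ → ℝ → ℝ → ℝ) (x y : ℝ) : ℝ := ∫ u in (0 : ℝ)..(2 * Real.pi), F x y u

lemma inn_cont {F : ℝ → ℝ → ℝ → ℝ} (hF : Cont3 F) : Continuous fun v : ℝ × ℝ => inn F v.1 v.2 := by
  unfold inn
  apply intervalIntegral.continuous_parametric_intervalIntegral_of_continuous'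
  have : Continuous (fun w : (ℝ × ℝ) × ℝ => ((w.1.1, w.1.2, w.2) : ℝ × ℝ × ℝ)) := by fun_prop
  exact (show Continuous fun v : ℝ × ℝ × ℝ => F v.1 v.2.1 v.2.2 from hF).comp this

lemma av_eq (F : ℝ → ℝ → ℝ → ℝ) : av F = ((2 * Real.pi)⁻¹) ^ 3 *
    ∫ x in (0 : ℝ)..(2 * Real.pi), ∫ y in (0 : ℝ)..(2 * Real.pi), inn F x y := rfl

theorem avt : S_AVT := by
  intro F hF hP
  constructor
  · intro c d e
    have h1 : ∀ x y, inn (fun x y u => F (x + c) (y + d) (u + e)) x y = inn F (x + c) (y + d) := by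
      intro x y
      exact per_shift (f := fun u => F (x + c) (y + d) u) (fun u => (hP _ _ u).2.2) e
    have h2 : ∀ x, (∫ y in (0 : ℝ)..(2 * Real.pi), inn F (x + c) (y + d))
        = ∫ y in (0 : ℝ)..(2 * Real.pi), inn F (x + c) y := by
      intro x
      apply per_shift (f := fun y => inn F (x + c) y)
      intro y
      unfold inn
      congr 1
      funext u
      exact (hP _ y u).2.1
    have h3 : (∫ x in (0 : ℝ)..(2 * Real.pi), ∫ y in (0 : ℝ)..(2 * Real.pi), inn F (x + c) y)
        = ∫ x in (0 : ℝ)..(2 * Real.pi), ∫ y in (0 : ℝ)..(2 * Real.pi), inn F x y := by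
      apply per_shift (f := fun x => ∫ y in (0 : ℝ)..(2 * Real.pi), inn F x y)
      intro x
      congr 1
      funext y
      unfold inn
      congr 1
      funext u
      exact (hP x y u).1
    rw [av_eq, av_eq]
    simp_rw [h1, h2]
    rw [h3]
  · have hper1 : ∀ x y, inn F (x + 2 * Real.pi) y = inn F x y := by
      intro x y
      unfold inn
      congr 1
      funext u
      exact (hP x y u).1
    have hper2 : ∀ x y, inn F x (y + 2 * Real.pi) = inn F x y := by
      intro x y
      unfold inn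
      congr 1
      funext u
      exact (hP x y u).2.1
    have hic := inn_cont hF
    have h1 : ∀ x y, inn (fun x y u => F (2 * x + y) (x + y) u) x y = inn F (2 * x + y) (x + y) :=
      fun x y => rfl
    have h2 : ∀ x, (∫ y in (0 : ℝ)..(2 * Real.pi), inn F (2 * x + y) (x + y))
        = ∫ b in (0 : ℝ)..(2 * Real.pi), inn F (x + b) b := by
      intro x
      have h3 := per_shift (f := fun b => inn F (x + b) b) (fun b => by
        have : x + (b + 2 * Real.pi) = (x + b) + 2 * Real.pi := by ring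
        simp only [this, hper1, hper2]) x
      rw [← h3]
      congr 1
      funext y
      have e1 : x + (x + y) = 2 * x + y := by ring
      have e2 : y + x = x + y := by ring
      simp only [e2, e1]
    have h4 : (∫ x in (0 : ℝ)..(2 * Real.pi), ∫ b in (0 : ℝ)..(2 * Real.pi), inn F (x + b) b)
        = ∫ b in (0 : ℝ)..(2 * Real.pi), ∫ x in (0 : ℝ)..(2 * Real.pi), inn F (x + b) b := by
      apply swap_cont (G := fun x b => inn F (x + b) b)
      have : Continuous (fun v : ℝ × ℝ => ((v.1 + v.2, v.2) : ℝ × ℝ)) := by fun_prop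
      exact hic.comp this
    have h5 : ∀ b, (∫ x in (0 : ℝ)..(2 * Real.pi), inn F (x + b) b)
        = ∫ x in (0 : ℝ)..(2 * Real.pi), inn F x b := by
      intro b
      exact per_shift (f := fun x => inn F x b) (fun x => hper1 x b) b
    rw [av_eq, av_eq]
    simp_rw [h1, h2]
    rw [h4]
    simp_rw [h5]
    rw [swap_cont (G := fun x b => inn F x b) hic]

end Pool.Agent.Helper99.AB
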